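import Pool.Agent.Work.MP_b29d7f_ns_helper64.FINC

/-! Block FIN1: a complex place. -/

set_option autoImplicit false

open Finset Filter Topology MeasureTheory

namespace Pool.NS

namespace FIN1_

open Data FINC_

/-- many unit vectors in the plane -/
lemma unit_vecs (k : ℕ) (hk : k = 2) (N : ℕ) : ∃ u : Fin (N + 1) → E k, (∀ i, ‖u i‖ = 1) ∧
    ∀ i j, i ≠ j → 1 / ((N : ℝ) + 1) ≤ ‖u i - u j‖ := by
  subst hk
  have hN : (0 : ℝ) < (N : ℝ) + 1 := by positivity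
  have hx1 : ∀ i : Fin (N + 1), (i : ℝ) / ((N : ℝ) + 1) ≤ 1 := by
    intro i
    rw [div_le_one hN]
    have : ((i : ℕ) : ℝ) ≤ ((N + 1 : ℕ) : ℝ) := by exact_mod_cast i.2.le
    simpa using this
  have hx0 : ∀ i : Fin (N + 1), 0 ≤ (i : ℝ) / ((N : ℝ) + 1) := fun i => by positivity
  refine ⟨fun i => !₂[(i : ℝ) / ((N : ℝ) + 1), Real.sqrt (1 - ((i : ℝ) / ((N : ℝ) + 1)) ^ 2)],
    ?_, ?_⟩
  · intro i
    rw [EuclideanSpace.norm_eq, Fin.sum_univ_two]
    have h1 : 0 ≤ 1 - ((i : ℝ) / ((N : ℝ) + 1)) ^ 2 := by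
      have := hx1 i
      have := hx0 i
      nlinarith
    simp only [Real.norm_eq_abs, sq_abs, Matrix.cons_val_zero, Matrix.cons_val_one]
    rw [Real.sq_sqrt h1]
    rw [add_sub_cancel, Real.sqrt_one]
  · intro i j hij
    set x : E 2 := !₂[(i : ℝ) / ((N : ℝ) + 1), Real.sqrt (1 - ((i : ℝ) / ((N : ℝ) + 1)) ^ 2)]
      with hx
    set y : E 2 := !₂[(j : ℝ) / ((N : ℝ) + 1), Real.sqrt (1 - ((j : ℝ) / ((N : ℝ) + 1)) ^ 2)]
      with hy
    have h1 : |(x - y) 0| ≤ ‖x - y‖ := by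
      have := PiLp.norm_apply_le (x - y) 0
      simpa using this
    refine le_trans ?_ h1
    have h2 : (x - y) 0 = ((i : ℝ) - j) / ((N : ℝ) + 1) := by
      simp [hx, hy]; ring
    rw [h2, abs_div, abs_of_pos hN]
    apply div_le_div_of_nonneg_right _ hN.le
    have h3 : ((i : ℕ) : ℤ) - ((j : ℕ) : ℤ) ≠ 0 := by
      intro h
      apply hij
      have : (i : ℕ) = (j : ℕ) := by omega
      exact Fin.ext this
    have h4 : (1 : ℤ) ≤ |((i : ℕ) : ℤ) - ((j : ℕ) : ℤ)| := Int.one_le_abs h3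
    have h5 : ((1 : ℤ) : ℝ) ≤ ((|((i : ℕ) : ℤ) - ((j : ℕ) : ℤ)| : ℤ) : ℝ) := by exact_mod_cast h4
    push_cast at h5
    exact h5

/-- the geometric lemma -/
lemma geom {k : ℕ} (u α : E k) (hu : ‖u‖ = 1) {H γ C δ : ℝ} (hγ : 0 < γ)
    (hα : ‖α‖ ≤ C) (hC : 0 < C) (hδ : 0 < δ) (hδH : δ ≤ H / 4) (hδγ : δ ≤ γ / 8)
    (hfar : γ < ‖α + ‖α‖ • u‖) : ∃ w : E k, ‖w‖ ≤ 2 * δ ∧
      ‖α + w‖ ^ 2 ≤ ‖α‖ ^ 2 - 3 / 8 * γ * (δ * (γ / C) ^ 2) ∧
      ∀ t : ℝ, H ≤ t → ‖t • u + w‖ ^ 2 ≤ t ^ 2 - 3 / 4 * H * (δ * (γ / C) ^ 2) := by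
  have h1 : ‖α + ‖α‖ • u‖ ≤ 2 * ‖α‖ := by
    refine (norm_add_le _ _).trans ?_
    rw [norm_smul, hu, norm_norm]; linarith
  have hα0 : γ / 2 < ‖α‖ := by linarith
  have hαpos : 0 < ‖α‖ := by linarith
  set β : E k := ‖α‖⁻¹ • α with hβ
  have hβn : ‖β‖ = 1 := by
    rw [hβ, norm_smul, norm_inv, norm_norm, inv_mul_cancel₀ hαpos.ne']
  have hαβ : α = ‖α‖ • β := by
    rw [hβ, smul_smul, mul_inv_cancel₀ hαpos.ne', one_smul]
  set s : ℝ := ‖u + β‖ with hs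
  have hs0 : 0 ≤ s := norm_nonneg _
  have hs1 : ‖α + ‖α‖ • u‖ = ‖α‖ * s := by
    nth_rw 1 [hαβ]
    rw [← smul_add, norm_smul, norm_norm, hs, add_comm β u]
  have hs2 : s ≤ 2 := by
    rw [hs]
    exact (norm_add_le _ _).trans (by rw [hu, hβn]; norm_num)
  have hs3 : γ / C ≤ s := by
    rw [div_le_iff₀ hC]
    have : ‖α‖ * s ≤ C * s := mul_le_mul_of_nonneg_right hα hs0
    linarith
  have hs4 : (γ / C) ^ 2 ≤ s ^ 2 := pow_le_pow_left₀ (by positivity) hs3 2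
  have hss : s ^ 2 = 2 + 2 * inner ℝ u β := by
    rw [hs, norm_add_sq_real, hu, hβn]; ring
  have hiu : inner ℝ u (u + β) = s ^ 2 / 2 := by
    rw [inner_add_right, real_inner_self_eq_norm_sq, hu, hss]; ring
  have hiβ : inner ℝ β (u + β) = s ^ 2 / 2 := by
    rw [inner_add_right, real_inner_self_eq_norm_sq, hβn, hss, real_inner_comm]; ring
  have hg : δ * (γ / C) ^ 2 ≤ δ * s ^ 2 := mul_le_mul_of_nonneg_left hs4 hδ.le
  have hg0 : 0 ≤ δ * s ^ 2 := by positivity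
  refine ⟨(-δ) • (u + β), ?_, ?_, ?_⟩
  · rw [norm_smul, norm_neg, Real.norm_eq_abs, abs_of_pos hδ, ← hs]
    nlinarith
  · have h2 : ‖α + (-δ) • (u + β)‖ ^ 2 = ‖α‖ ^ 2 - δ * s ^ 2 * (‖α‖ - δ) := by
      rw [norm_add_sq_real, inner_smul_right, norm_smul, norm_neg, Real.norm_eq_abs,
        abs_of_pos hδ, ← hs]
      nth_rw 2 [hαβ]
      rw [inner_smul_left, hiβ]
      simp only [conj_trivial]
      ring
    rw [h2]
    have h3 : 3 / 8 * γ * (δ * (γ / C) ^ 2) ≤ δ * s ^ 2 * (‖α‖ - δ) := by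
      calc 3 / 8 * γ * (δ * (γ / C) ^ 2) ≤ 3 / 8 * γ * (δ * s ^ 2) :=
            mul_le_mul_of_nonneg_left hg (by positivity)
        _ = δ * s ^ 2 * (3 / 8 * γ) := by ring
        _ ≤ δ * s ^ 2 * (‖α‖ - δ) := mul_le_mul_of_nonneg_left (by linarith) hg0
    linarith
  · intro t ht
    have h2 : ‖t • u + (-δ) • (u + β)‖ ^ 2 = t ^ 2 - δ * s ^ 2 * (t - δ) := by
      rw [norm_add_sq_real, inner_smul_right, inner_smul_left, hiu, norm_smul, norm_smul, hu,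
        norm_neg, Real.norm_eq_abs, Real.norm_eq_abs, abs_of_pos hδ, ← hs]
      simp only [conj_trivial, mul_one, sq_abs]
      ring
    rw [h2]
    have h3 : 3 / 4 * H * (δ * (γ / C) ^ 2) ≤ δ * s ^ 2 * (t - δ) := by
      have hH : 0 ≤ H := by linarith
      calc 3 / 4 * H * (δ * (γ / C) ^ 2) ≤ 3 / 4 * H * (δ * s ^ 2) :=
            mul_le_mul_of_nonneg_left hg (by positivity)
        _ = δ * s ^ 2 * (3 / 4 * H) := by ring
        _ ≤ δ * s ^ 2 * (t - δ) := mul_le_mul_of_nonneg_left (by linarith) hg0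
    linarith

/-- points near different rays are different -/
lemma rays {k : ℕ} (u u' x : E k) (hu : ‖u‖ = 1) (hu' : ‖u'‖ = 1) {t t' H d γ : ℝ} (hH : 0 < H)
    (ht : H ≤ t) (ht' : H ≤ t') (hd : 0 < d) (hdu : d ≤ ‖u - u'‖) (hx : ‖x - t • u‖ ≤ γ)
    (hx' : ‖x - t' • u'‖ ≤ γ) (hγ : 2 * γ < H * d) : False := by
  have h1 : ‖t • u - t' • u'‖ ≤ 2 * γ := by
    have : t • u - t' • u' = (x - t' • u') - (x - t • u) := by abel
    rw [this]
    exact (norm_sub_le _ _).trans (by linarith)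
  have h2 : ‖t • u - t' • u'‖ ^ 2 = (t - t') ^ 2 + t * t' * ‖u - u'‖ ^ 2 := by
    rw [norm_sub_sq_real, norm_sub_sq_real, inner_smul_left, inner_smul_right, norm_smul,
      norm_smul, hu, hu']
    simp only [conj_trivial, Real.norm_eq_abs, mul_one, sq_abs]
    ring
  have h3 : (H * d) ^ 2 ≤ ‖t • u - t' • u'‖ ^ 2 := by
    rw [h2]
    have h4 : H * H ≤ t * t' := mul_le_mul ht ht' hH.le (hH.le.trans ht)
    have h5 : d ^ 2 ≤ ‖u - u'‖ ^ 2 := pow_le_pow_left₀ hd.le hdu 2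
    have h6 : H * H * d ^ 2 ≤ t * t' * ‖u - u'‖ ^ 2 :=
      mul_le_mul h4 h5 (by positivity) ((mul_pos hH hH).le.trans h4)
    have h7 : (H * d) ^ 2 = H * H * d ^ 2 := by ring
    nlinarith [sq_nonneg (t - t')]
  have h4 : H * d ≤ ‖t • u - t' • u'‖ :=
    le_of_sq_le_sq h3 (norm_nonneg _)
  linarith
where
  le_of_sq_le_sq {a b : ℝ} (h : a ^ 2 ≤ b ^ 2) (hb : 0 ≤ b) : a ≤ b := by
    exact abs_le_of_sq_le_sq' h hb |>.2

end FIN1_

open Data FINC_ FIN1_ in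
/-- a version without the hypothesis that there is only one place -/
theorem fin1_strong (hSUB : Stmt_SUB) (hPLC : Stmt_PLC) (hMOVE : Stmt_MOVE) (hXC : Stmt_XC)
    (hHRAD : Stmt_HRAD) (hREP : Stmt_REP) (hLATB : Stmt_LATB) (hGRO : Stmt_GRO)
    (R : Type) [CommRing R] (P : Data R) (S : Sq P)
    (f φ : (v : P.Ω) → E (P.e v) → ℝ) (z₀ : (v : P.Ω) → E (P.e v))
    (hL : ∀ v, LimV S v (f v) (φ v)) (hR : ∀ v, Rad (f v) (φ v) (z₀ v))
    (v₁ : P.Ω) : P.e v₁ ≠ 2 := by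
  intro he
  obtain ⟨lam, hlam⟩ := hSUB R P S
  obtain ⟨H, hH, hHr⟩ := hHRAD R P S lam hlam f φ z₀ hL hR v₁
  set T₀ : ℝ := ∑ v ∈ Finset.univ.erase v₁, φ v (z₀ v) with hT₀
  obtain ⟨u₀, hu₀⟩ : ∃ u : E (P.e v₁), ‖u‖ = 1 := by
    obtain ⟨u, hu, -⟩ := unit_vecs (P.e v₁) he 0
    exact ⟨u 0, hu 0⟩
  have hΛ := hHr u₀ hu₀
  set Λ : ℝ := φ v₁ (z₀ v₁ + H • u₀) + T₀ with hΛdef
  have hΛu : ∀ u : E (P.e v₁), ‖u‖ = 1 → φ v₁ (z₀ v₁ + H • u) + T₀ = Λ := fun u hu =>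
    tendsto_nhds_unique (hHr u hu) hΛ
  set Z : ℝ := ∑ v, ‖z₀ v‖ with hZ
  have hZv : ∀ v, ‖z₀ v‖ ≤ Z := fun v =>
    Finset.single_le_sum (f := fun v => ‖z₀ v‖) (fun _ _ => norm_nonneg _) (Finset.mem_univ v)
  have hZ0 : 0 ≤ Z := Finset.sum_nonneg fun _ _ => norm_nonneg _
  obtain ⟨c₁, C₂, D, hc₁, hcore⟩ := core hXC hGRO hMOVE hPLC hREP S lam hlam f φ hL Λ hΛ
    (Z + H + 1)
  have hexp : 0 < Real.exp C₂ := Real.exp_pos _
  set B : ℝ := Real.exp C₂ + Z + 2 * H + 2 with hB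
  obtain ⟨c, hc, hlow⟩ := (hR v₁).low B
  obtain ⟨N₀, hN₀⟩ := hLATB R P S D
  obtain ⟨u, hu, huu⟩ := unit_vecs (P.e v₁) he N₀
  set d : ℝ := 1 / ((N₀ : ℝ) + 1) with hd
  have hd0 : 0 < d := by positivity
  set γ : ℝ := H * d / 8 with hγ
  have hγ0 : 0 < γ := by positivity
  set C : ℝ := Real.exp C₂ + Z with hC
  have hC0 : 0 < C := by positivity
  set δ : ℝ := min (H / 4) (γ / 8) with hδ
  have hδ0 : 0 < δ := by positivity
  have hδH : δ ≤ H / 4 := min_le_left _ _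
  have hδγ : δ ≤ γ / 8 := min_le_right _ _
  set g : ℝ := δ * (γ / C) ^ 2 with hg
  have hg0 : 0 < g := by positivity
  set ε₁ : ℝ := min 1 (min H (g / 12)) with hε₁
  have hε₁0 : 0 < ε₁ := by positivity
  have hε₁1 : ε₁ ≤ 1 := min_le_left _ _
  have hε₁H : ε₁ ≤ H := (min_le_right _ _).trans (min_le_left _ _)
  have hε₁g : ε₁ ≤ g / 12 := (min_le_right _ _).trans (min_le_right _ _)
  have hq : (H + ε₁) ^ 2 - H ^ 2 ≤ 1 / 4 * H * g := by
    calc (H + ε₁) ^ 2 - H ^ 2 = ε₁ * (2 * H + ε₁) := by ring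
      _ ≤ ε₁ * (3 * H) := mul_le_mul_of_nonneg_left (by linarith) hε₁0.le
      _ ≤ g / 12 * (3 * H) := mul_le_mul_of_nonneg_right hε₁g (by positivity)
      _ = 1 / 4 * H * g := by ring
  set ε : ℝ := min (c * (1 / 2 * H * g)) (c * (3 / 8 * γ * g)) with hε
  have hε0 : 0 < ε := by positivity
  -- the estimates for a single vector
  have key : ∀ i : Fin (N₀ + 1), ∀ᶠ l in 𝒰, ∃ μ : R, μ ∈ S.L l ∧ S.ex l μ ≤ D ∧
      ∃ t : ℝ, H ≤ t ∧ ‖S.X l μ v₁ - t • u i‖ ≤ 2 * γ := by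
    intro i
    have hui := hu i
    have hnorm : ∀ r : ℝ, 0 ≤ r → ‖(z₀ v₁ + r • u i) - z₀ v₁‖ = r := by
      intro r hr
      rw [add_sub_cancel_left, norm_smul, hui, mul_one, Real.norm_eq_abs, abs_of_nonneg hr]
    have hbd : ∀ r : ℝ, 0 ≤ r → ‖z₀ v₁ + r • u i‖ ≤ Z + r := by
      intro r hr
      refine (norm_add_le _ _).trans ?_
      rw [norm_smul, hui, mul_one, Real.norm_eq_abs, abs_of_nonneg hr]
      linarith [hZv v₁]
    set z : (v : P.Ω) → E (P.e v) :=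
      Function.update z₀ v₁ (z₀ v₁ + (H + ε₁) • u i) with hz
    have hz₁ : z v₁ = z₀ v₁ + (H + ε₁) • u i := by rw [hz, Function.update_self]
    have hzv : ∀ v, v ≠ v₁ → z v = z₀ v := fun v hv => by rw [hz, Function.update_of_ne hv]
    have hzW : ∀ v, ‖z v‖ ≤ Z + H + 1 := by
      intro v
      by_cases hv : v = v₁
      · subst hv
        rw [hz₁]
        exact (hbd _ (by positivity)).trans (by linarith)
      · rw [hzv v hv]; linarith [hZv v]
    have hΦ : Λ < ∑ v, φ v (z v) := by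
      rw [hz, FINC_.sum_update, ← hΛu (u i) hui]
      have hb1 := hbd H hH.le
      have hb2 := hbd (H + ε₁) (by positivity)
      have h1 := hlow (z₀ v₁ + H • u i) (z₀ v₁ + (H + ε₁) • u i)
        (by linarith) (by linarith) (by rw [hnorm _ hH.le, hnorm _ (by positivity)]; linarith)
      rw [hnorm _ hH.le, hnorm _ (by positivity)] at h1
      have h2 : 0 < c * ((H + ε₁) ^ 2 - H ^ 2) := by
        apply mul_pos hc
        have : (H + ε₁) ^ 2 - H ^ 2 = ε₁ * (2 * H + ε₁) := by ring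
        rw [this]; positivity
      linarith
    filter_upwards [hcore z γ ε (2 * δ) hzW hΦ hγ0 hε0] with l hl
    obtain ⟨y, a, hy, hya, hyL, ha, haD, hcl, hw⟩ := hl
    refine ⟨y - a, hyL, haD, H + ε₁ + ‖S.X l a v₁ - z₀ v₁‖,
      by linarith [norm_nonneg (S.X l a v₁ - z₀ v₁)], ?_⟩
    set α : E (P.e v₁) := S.X l a v₁ - z₀ v₁ with hα
    have hXa : ‖S.X l a v₁‖ ≤ Real.exp C₂ :=
      (S.norm_X_le l a v₁).trans (Real.exp_le_exp.2 ha)
    have hαC : ‖α‖ ≤ C := (norm_sub_le _ _).trans (add_le_add hXa (hZv v₁))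
    have hnear : ‖α + ‖α‖ • u i‖ ≤ γ := by
      by_contra hcon
      rw [not_le] at hcon
      obtain ⟨w₁, hw₁n, hw₁a, hw₁t⟩ := geom (u i) α hui hγ0 hαC hC0 hδ0 hδH hδγ hcon
      rw [← hg] at hw₁a
      have hw₁t' := hw₁t (H + ε₁) (by linarith)
      rw [← hg] at hw₁t'
      set w : (v : P.Ω) → E (P.e v) := Function.update 0 v₁ w₁ with hwdef
      have hwn : ∀ v, ‖w v‖ ≤ 2 * δ := by
        intro v
        by_cases hv : v = v₁
        · subst hv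
          rw [hwdef, Function.update_self]; exact hw₁n
        · rw [hwdef, Function.update_of_ne hv]
          simp [hδ0.le]
      have hsum1 : ∑ v, (φ v (S.X l a v + w v) - φ v (S.X l a v)) ≤ -ε := by
        have h1 := FINC_.sum_update (fun v ξ => φ v (S.X l a v + ξ) - φ v (S.X l a v)) 0 v₁ w₁
        rw [← hwdef] at h1
        rw [h1]
        have h2 : ∑ v ∈ Finset.univ.erase v₁,
            (φ v (S.X l a v + (0 : (v : P.Ω) → E (P.e v)) v) - φ v (S.X l a v)) = 0 := by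
          apply Finset.sum_eq_zero
          intro v _
          simp
        have h6 : S.X l a v₁ + w₁ - z₀ v₁ = α + w₁ := by rw [hα]; abel
        have h7 : ‖S.X l a v₁ + w₁ - z₀ v₁‖ ≤ ‖S.X l a v₁ - z₀ v₁‖ := by
          rw [h6, ← hα]
          apply abs_le_of_sq_le_sq' _ (norm_nonneg _) |>.2
          have : 0 < 3 / 8 * γ * g := by positivity
          linarith
        have h8 := hlow (S.X l a v₁ + w₁) (S.X l a v₁)
          ((norm_add_le _ _).trans (by linarith)) (by linarith) h7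
        rw [h6, ← hα] at h8
        have h9 : c * (3 / 8 * γ * g) ≤ c * (‖α‖ ^ 2 - ‖α + w₁‖ ^ 2) :=
          mul_le_mul_of_nonneg_left (by linarith) hc.le
        have h10 : ε ≤ c * (3 / 8 * γ * g) := min_le_right _ _
        linarith
      have hfin := hw w hwn hsum1
      have h1 := FINC_.sum_update (fun v ξ => φ v (z v + ξ)) 0 v₁ w₁
      rw [← hwdef] at h1
      rw [h1] at hfin
      have h2 : ∑ v ∈ Finset.univ.erase v₁,
          φ v (z v + (0 : (v : P.Ω) → E (P.e v)) v) = T₀ := by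
        apply Finset.sum_congr rfl
        intro v hv
        rw [Pi.zero_apply, add_zero, hzv v (Finset.ne_of_mem_erase hv)]
      simp only [h2] at hfin
      have h6 : z v₁ + w₁ - z₀ v₁ = (H + ε₁) • u i + w₁ := by rw [hz₁]; abel
      have h7 : ‖z v₁ + w₁ - z₀ v₁‖ ^ 2 ≤ H ^ 2 - 1 / 2 * H * g := by
        rw [h6]; linarith
      have h8 : ‖z v₁ + w₁ - z₀ v₁‖ ≤ ‖(z₀ v₁ + H • u i) - z₀ v₁‖ := by
        rw [hnorm H hH.le]
        apply abs_le_of_sq_le_sq' _ hH.le |>.2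
        have : 0 < 1 / 2 * H * g := by positivity
        linarith
      have h9 := hlow (z v₁ + w₁) (z₀ v₁ + H • u i)
        ((norm_add_le _ _).trans (by linarith [hzW v₁])) (by linarith [hbd H hH.le]) h8
      rw [hnorm H hH.le] at h9
      have h10 : c * (1 / 2 * H * g) ≤ c * (H ^ 2 - ‖z v₁ + w₁ - z₀ v₁‖ ^ 2) :=
        mul_le_mul_of_nonneg_left (by linarith) hc.le
      have h11 : ε ≤ c * (1 / 2 * H * g) := min_le_left _ _
      have h12 := hΛu (u i) hui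
      linarith
    have h1 : S.X l (y - a) v₁ - (H + ε₁ + ‖α‖) • u i
        = (S.X l y v₁ - z v₁) - (α + ‖α‖ • u i) := by
      rw [S.X_sub, hz₁, hα, add_smul]; abel
    rw [h1]
    refine (norm_sub_le _ _).trans ?_
    linarith [hy v₁]
  have hlat := hN₀.filter_mono Nat.hyperfilter_le_atTop
  obtain ⟨l, hl1, hl2⟩ := ((eventually_all.2 key).and hlat).exists
  choose μ hμL hμD t ht hμt using hl1
  have hinj : Function.Injective μ := by
    intro i j hij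
    by_contra hne
    have h1 := hμt i
    have h2 := hμt j
    rw [← hij] at h2
    refine rays (u i) (u j) (S.X l (μ i) v₁) (hu i) (hu j) hH (ht i) (ht j) hd0
      (huu i j hne) h1 h2 ?_
    have : 0 < H * d := by positivity
    rw [hγ]; linarith
  classical
  have h3 := hl2 (Finset.univ.image μ) (by
    intro m hm
    obtain ⟨i, -, rfl⟩ := Finset.mem_image.1 hm
    exact ⟨hμL i, hμD i⟩)
  rw [Finset.card_image_of_injective _ hinj, Finset.card_univ, Fintype.card_fin] at h3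
  omega

theorem stmt_FIN1 (hSUB : Stmt_SUB) (hPLC : Stmt_PLC) (hMOVE : Stmt_MOVE) (hXC : Stmt_XC)
    (hHRAD : Stmt_HRAD) (hREP : Stmt_REP) (hLATB : Stmt_LATB) (hGRO : Stmt_GRO) : Stmt_FIN1 := by
  intro R _ P S f φ z₀ hL hR v₁ _
  exact fin1_strong hSUB hPLC hMOVE hXC hHRAD hREP hLATB hGRO R P S f φ z₀ hL hR v₁

end Pool.NS
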