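import Pool.Agent.Work.MP_b29d7f_ns_helper64.FINC

/-! Block FIN2: two infinite places. -/

set_option autoImplicit false

open Finset Filter Topology MeasureTheory

namespace Pool.NS

namespace FIN2_

open Data FINC_

lemma unit_vec (k : ℕ) (hk : k = 1 ∨ k = 2) : ∃ u : E k, ‖u‖ = 1 := by
  rcases hk with rfl | rfl
  · exact ⟨EuclideanSpace.single 0 1, by simp⟩
  · exact ⟨EuclideanSpace.single 0 1, by simp⟩

lemma choose_small (C c₀ C₃ m : ℝ) (hc₀ : 0 < c₀) (hC₃ : 0 < C₃) (hm : 0 < m) :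
    ∃ τ : ℝ, 0 < τ ∧ τ ≤ m ∧ (τ / C₃) ^ (4 / 5 : ℝ) ≤ m ∧
      C * τ * Real.log (1 / τ) ≤ c₀ * (τ / C₃) ^ (4 / 5 : ℝ) := by
  have h1 : ∀ᶠ τ in 𝓝[>] (0 : ℝ), τ ∈ Set.Ioo (0 : ℝ) m := Ioo_mem_nhdsGT hm
  have h2 : ∀ᶠ τ in 𝓝[>] (0 : ℝ), (τ / C₃) ^ (4 / 5 : ℝ) < m := by
    have h3 : Tendsto (fun τ : ℝ => (τ / C₃) ^ (4 / 5 : ℝ)) (𝓝[>] 0) (𝓝 0) := by
      have h4 : ContinuousAt (fun τ : ℝ => (τ / C₃) ^ (4 / 5 : ℝ)) 0 := by
        apply ContinuousAt.rpow_const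
        · exact continuousAt_id.div_const _
        · right; norm_num
      have h5 := h4.tendsto.mono_left (nhdsWithin_le_nhds (s := Set.Ioi (0 : ℝ)))
      simpa using h5
    exact h3.eventually (gt_mem_nhds hm)
  have h3 : ∀ᶠ τ in 𝓝[>] (0 : ℝ),
      -(C * (Real.log τ * τ ^ (1 / 5 : ℝ))) < c₀ * (1 / C₃) ^ (4 / 5 : ℝ) := by
    have h4 := tendsto_log_mul_rpow_nhdsGT_zero (r := 1 / 5) (by norm_num)
    have h5 : Tendsto (fun τ : ℝ => -(C * (Real.log τ * τ ^ (1 / 5 : ℝ)))) (𝓝[>] 0) (𝓝 0) := by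
      have := (h4.const_mul C).neg
      simpa using this
    apply h5.eventually (gt_mem_nhds _)
    positivity
  obtain ⟨τ, ⟨h4, h5⟩, h6, h7⟩ := (h1.and (h2.and h3)).exists
  refine ⟨τ, h4, h5.le, h6.le, ?_⟩
  have h8 : (τ / C₃) ^ (4 / 5 : ℝ) = τ ^ (4 / 5 : ℝ) * (1 / C₃) ^ (4 / 5 : ℝ) := by
    rw [div_eq_mul_one_div, Real.mul_rpow h4.le (by positivity)]
  have h9 : τ = τ ^ (4 / 5 : ℝ) * τ ^ (1 / 5 : ℝ) := by
    rw [← Real.rpow_add h4]; norm_num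
  have h10 : 0 < τ ^ (4 / 5 : ℝ) := by positivity
  have h11 : C * τ * Real.log (1 / τ)
      = τ ^ (4 / 5 : ℝ) * (-(C * (Real.log τ * τ ^ (1 / 5 : ℝ)))) := by
    rw [Real.log_div one_ne_zero h4.ne', Real.log_one, zero_sub]
    nth_rw 1 [h9]
    ring
  rw [h11, h8]
  calc τ ^ (4 / 5 : ℝ) * (-(C * (Real.log τ * τ ^ (1 / 5 : ℝ))))
      ≤ τ ^ (4 / 5 : ℝ) * (c₀ * (1 / C₃) ^ (4 / 5 : ℝ)) :=
        mul_le_mul_of_nonneg_left h7.le h10.le
    _ = c₀ * (τ ^ (4 / 5 : ℝ) * (1 / C₃) ^ (4 / 5 : ℝ)) := by ring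

lemma q1 {x d c : ℝ} (h : c / 2 ≤ x) (hd : 0 < d) (hdc : d ≤ c / 4) :
    c / 2 * d ≤ x ^ 2 - (x - d) ^ 2 := by
  have h1 : x ^ 2 - (x - d) ^ 2 = d * (2 * x - d) := by ring
  rw [h1, mul_comm]
  exact mul_le_mul_of_nonneg_left (by linarith) hd.le

lemma q2 {H τ : ℝ} (hτ0 : 0 < τ) (hτH : τ ≤ H) : H * τ / 2 ≤ H ^ 2 - (H - τ / 2) ^ 2 := by
  have h1 : H ^ 2 - (H - τ / 2) ^ 2 = τ * (H - τ / 4) := by ring
  have h2 : H * τ / 2 = τ * (H / 2) := by ring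
  rw [h1, h2]
  exact mul_le_mul_of_nonneg_left (by linarith) hτ0.le

lemma q3 {H τ : ℝ} (hH : 0 < H) (hτ0 : 0 < τ) : 0 < (H + τ / 2) ^ 2 - H ^ 2 := by
  have h1 : (H + τ / 2) ^ 2 - H ^ 2 = τ * (H + τ / 4) := by ring
  rw [h1]; positivity

variable {R : Type} [CommRing R] {P : Data R}

lemma sum_update2 (φ : (v : P.Ω) → E (P.e v) → ℝ) (z : (v : P.Ω) → E (P.e v)) {v₁ v₂ : P.Ω}
    (hne : v₁ ≠ v₂) (ξ₁ : E (P.e v₁)) (ξ₂ : E (P.e v₂)) :
    ∑ v, φ v (Function.update (Function.update z v₂ ξ₂) v₁ ξ₁ v)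
      = φ v₁ ξ₁ + φ v₂ ξ₂ + ∑ v ∈ (Finset.univ.erase v₁).erase v₂, φ v (z v) := by
  rw [FINC_.sum_update, add_assoc]
  congr 1
  have h : v₂ ∈ Finset.univ.erase v₁ := Finset.mem_erase.2 ⟨hne.symm, Finset.mem_univ _⟩
  rw [← Finset.add_sum_erase _ _ h, Function.update_self]
  congr 1
  apply Finset.sum_congr rfl
  intro v hv
  rw [Function.update_of_ne (Finset.ne_of_mem_erase hv)]

end FIN2_

open Data FINC_ FIN2_ in
theorem stmt_FIN2 (hSUB : Stmt_SUB) (hPLC : Stmt_PLC) (hMOVE : Stmt_MOVE) (hXC : Stmt_XC)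
    (hHRAD : Stmt_HRAD) (hREP : Stmt_REP) (hUPM : Stmt_UPM) (hGRO : Stmt_GRO) : Stmt_FIN2 := by
  intro R _ P S f φ z₀ hL hR v₁ v₂ hne hflat
  obtain ⟨K, hK0, hK⟩ := hflat
  obtain ⟨lam, hlam⟩ := hSUB R P S
  obtain ⟨H, hH, hHr⟩ := hHRAD R P S lam hlam f φ z₀ hL hR v₁
  obtain ⟨u₁, hu₁⟩ := unit_vec (P.e v₁) (S.geo.e_eq v₁)
  have hΛ := hHr u₁ hu₁
  set Λ : ℝ := φ v₁ (z₀ v₁ + H • u₁) + ∑ v ∈ Finset.univ.erase v₁, φ v (z₀ v) with hΛdef
  set Z : ℝ := ∑ v, ‖z₀ v‖ with hZ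
  have hZv : ∀ v, ‖z₀ v‖ ≤ Z := fun v =>
    Finset.single_le_sum (f := fun v => ‖z₀ v‖) (fun _ _ => norm_nonneg _) (Finset.mem_univ v)
  have hZ0 : 0 ≤ Z := Finset.sum_nonneg fun _ _ => norm_nonneg _
  obtain ⟨c₁, C₂, D, hc₁, hcore⟩ := core hXC hGRO hMOVE hPLC hREP S lam hlam f φ hL Λ hΛ
    (Z + H + 1)
  set B : ℝ := Real.exp C₂ + Z + H + 1 with hB
  have hexp : 0 < Real.exp C₂ := Real.exp_pos _
  obtain ⟨c, hc, hlow⟩ := (hR v₁).low B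
  obtain ⟨c', hc', hlow'⟩ := (hR v₂).low B
  obtain ⟨CU, hCU0, hCU⟩ := hUPM (P.e v₁) (f v₁) (φ v₁) (S.geo.e_eq v₁) (hL v₁).dens B
  set C₃ : ℝ := 2 * K / (c * H) + 1 with hC₃
  have hC₃0 : 0 < C₃ := by positivity
  have hC₃K : K ≤ c * H / 2 * C₃ := by
    rw [hC₃]
    have : c * H / 2 * (2 * K / (c * H) + 1) = K + c * H / 2 := by
      field_simp
    rw [this]
    have : 0 < c * H := by positivity
    linarith
  obtain ⟨τ, hτ0, hτm, hδm, hτ⟩ := choose_small CU (c' * c₁ / 4) (2 * C₃)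
    (min (min 1 H) (min (1 / 2) (c₁ / 4))) (by positivity) (by positivity) (by positivity)
  set δ : ℝ := (τ / (2 * C₃)) ^ (4 / 5 : ℝ) with hδ
  have hδ0 : 0 < δ := by positivity
  have hτ1 : τ ≤ 1 := hτm.trans ((min_le_left _ _).trans (min_le_left _ _))
  have hτH : τ ≤ H := hτm.trans ((min_le_left _ _).trans (min_le_right _ _))
  have hτ2 : τ ≤ 1 / 2 := hτm.trans ((min_le_right _ _).trans (min_le_left _ _))
  have hδ2 : δ ≤ 1 / 2 := hδm.trans ((min_le_right _ _).trans (min_le_left _ _))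
  have hδc : δ ≤ c₁ / 4 := hδm.trans ((min_le_right _ _).trans (min_le_right _ _))
  have hδ5 : δ ^ (5 / 4 : ℝ) = τ / (2 * C₃) := by
    rw [hδ, ← Real.rpow_mul (by positivity)]; norm_num
  have hKδ : K * δ ^ (5 / 4 : ℝ) ≤ c * H / 2 * (τ / 2) := by
    rw [hδ5]
    have h1 : K * (τ / (2 * C₃)) = (K / C₃) * (τ / 2) := by field_simp
    rw [h1]
    apply mul_le_mul_of_nonneg_right _ (by positivity)
    rw [div_le_iff₀ hC₃0]; exact hC₃K
  set ε : ℝ := min (c * H * τ / 4) (c' * c₁ / 4 * δ) with hε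
  have hε0 : 0 < ε := by positivity
  -- the exterior point
  set z : (v : P.Ω) → E (P.e v) :=
    Function.update z₀ v₁ (z₀ v₁ + (H + τ / 2) • u₁) with hz
  have hz₁ : z v₁ = z₀ v₁ + (H + τ / 2) • u₁ := by rw [hz, Function.update_self]
  have hzv : ∀ v, v ≠ v₁ → z v = z₀ v := fun v hv => by rw [hz, Function.update_of_ne hv]
  have hnorm : ∀ r : ℝ, 0 ≤ r → ‖(z₀ v₁ + r • u₁) - z₀ v₁‖ = r := by
    intro r hr
    rw [add_sub_cancel_left, norm_smul, hu₁, mul_one, Real.norm_eq_abs, abs_of_nonneg hr]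
  have hbd : ∀ r : ℝ, 0 ≤ r → r ≤ H + 1 → ‖z₀ v₁ + r • u₁‖ ≤ Z + H + 1 := by
    intro r hr hr'
    refine (norm_add_le _ _).trans ?_
    rw [norm_smul, hu₁, mul_one, Real.norm_eq_abs, abs_of_nonneg hr]
    linarith [hZv v₁]
  have hzW : ∀ v, ‖z v‖ ≤ Z + H + 1 := by
    intro v
    by_cases hv : v = v₁
    · subst hv
      rw [hz₁]
      exact hbd _ (by positivity) (by linarith)
    · rw [hzv v hv]; linarith [hZv v]
  have hΦ : Λ < ∑ v, φ v (z v) := by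
    rw [hz, FINC_.sum_update, hΛdef]
    have hb1 := hbd H hH.le (by linarith)
    have hb2 := hbd (H + τ / 2) (by positivity) (by linarith)
    have h1 := hlow (z₀ v₁ + H • u₁) (z₀ v₁ + (H + τ / 2) • u₁)
      (by linarith) (by linarith) (by rw [hnorm _ hH.le, hnorm _ (by positivity)]; linarith)
    rw [hnorm _ hH.le, hnorm _ (by positivity)] at h1
    have h2 : 0 < c * ((H + τ / 2) ^ 2 - H ^ 2) := mul_pos hc (q3 hH hτ0)
    linarith
  obtain ⟨l, y, a, hy, hya, hyL, ha, -, hcl, hw⟩ :=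
    (hcore z (c₁ / 2) ε 1 hzW hΦ (by positivity) hε0).exists
  set α : E (P.e v₂) := S.X l a v₂ - z₀ v₂ with hα
  have hα1 : c₁ / 2 ≤ ‖α‖ := by
    have h1 := hcl v₂
    have h2 : S.X l (y - a) v₂ = (S.X l y v₂ - z v₂) - α := by
      rw [S.X_sub, hα, hzv v₂ hne.symm]; abel
    rw [h2] at h1
    have h3 := norm_sub_le (S.X l y v₂ - z v₂) α
    linarith [hy v₂]
  have hα0 : 0 < ‖α‖ := by linarith
  have hXa : ∀ v, ‖S.X l a v‖ ≤ Real.exp C₂ := fun v =>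
    (S.norm_X_le l a v).trans (Real.exp_le_exp.2 ha)
  set w₁ : E (P.e v₁) := (-τ) • u₁ with hw₁
  set w₂ : E (P.e v₂) := (-(δ / ‖α‖)) • α with hw₂
  have hw₁n : ‖w₁‖ = τ := by
    rw [hw₁, norm_smul, hu₁, mul_one, norm_neg, Real.norm_eq_abs, abs_of_pos hτ0]
  have hw₂n : ‖w₂‖ = δ := by
    rw [hw₂, norm_smul, norm_neg, Real.norm_eq_abs, abs_of_pos (by positivity)]
    field_simp
  set w : (v : P.Ω) → E (P.e v) := Function.update (Function.update 0 v₂ w₂) v₁ w₁ with hwdef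
  have hwn : ∀ v, ‖w v‖ ≤ 1 := by
    intro v
    by_cases hv : v = v₁
    · subst hv
      rw [hwdef, Function.update_self, hw₁n]; exact hτ1
    · rw [hwdef, Function.update_of_ne hv]
      by_cases hv' : v = v₂
      · subst hv'
        rw [Function.update_self, hw₂n]; linarith
      · rw [Function.update_of_ne hv']; simp
  have hsum1 : ∑ v, (φ v (S.X l a v + w v) - φ v (S.X l a v)) ≤ -ε := by
    have h1 := sum_update2 (fun v ξ => φ v (S.X l a v + ξ) - φ v (S.X l a v)) 0 hne w₁ w₂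
    rw [← hwdef] at h1
    rw [h1]
    have h2 : ∑ v ∈ (Finset.univ.erase v₁).erase v₂,
        (φ v (S.X l a v + (0 : (v : P.Ω) → E (P.e v)) v) - φ v (S.X l a v)) = 0 := by
      apply Finset.sum_eq_zero
      intro v _
      simp
    have h3 : φ v₁ (S.X l a v₁ + w₁) - φ v₁ (S.X l a v₁) ≤ CU * τ * Real.log (1 / τ) := by
      have h4 := hCU (S.X l a v₁ + w₁) (S.X l a v₁)
        ((norm_add_le _ _).trans (by rw [hw₁n]; linarith [hXa v₁]))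
        (by linarith [hXa v₁]) (by rw [add_sub_cancel_left, hw₁n]; exact hτ2)
      rw [add_sub_cancel_left, hw₁n] at h4
      exact (le_abs_self _).trans h4
    have h5 : φ v₂ (S.X l a v₂ + w₂) - φ v₂ (S.X l a v₂) ≤ -(c' * c₁ / 2 * δ) := by
      have h6 : ‖S.X l a v₂ + w₂ - z₀ v₂‖ = ‖α‖ - δ := by
        have h7 : S.X l a v₂ + w₂ - z₀ v₂ = (1 - δ / ‖α‖) • α := by
          rw [hw₂, sub_smul, one_smul, neg_smul, hα]; abel
        rw [h7, norm_smul, Real.norm_eq_abs, abs_of_nonneg]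
        · field_simp
        · rw [sub_nonneg, div_le_one hα0]; linarith
      have h8 := hlow' (S.X l a v₂ + w₂) (S.X l a v₂)
        ((norm_add_le _ _).trans (by rw [hw₂n]; linarith [hXa v₂]))
        (by linarith [hXa v₂]) (by rw [h6]; linarith)
      rw [h6, ← hα] at h8
      have h9 : c' * c₁ / 2 * δ ≤ c' * (‖α‖ ^ 2 - (‖α‖ - δ) ^ 2) := by
        have h10 : c₁ / 2 * δ ≤ ‖α‖ ^ 2 - (‖α‖ - δ) ^ 2 := q1 hα1 hδ0 hδc
        calc c' * c₁ / 2 * δ = c' * (c₁ / 2 * δ) := by ring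
          _ ≤ _ := mul_le_mul_of_nonneg_left h10 hc'.le
      linarith
    have h6 : ε ≤ c' * c₁ / 4 * δ := min_le_right _ _
    have h7 : c' * c₁ / 2 * δ = c' * c₁ / 4 * δ + c' * c₁ / 4 * δ := by ring
    linarith
  have hfin := hw w hwn hsum1
  have h1 := sum_update2 (fun v ξ => φ v (z v + ξ)) 0 hne w₁ w₂
  rw [← hwdef] at h1
  rw [h1] at hfin
  have h2 : ∑ v ∈ (Finset.univ.erase v₁).erase v₂,
      φ v (z v + (0 : (v : P.Ω) → E (P.e v)) v)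
        = ∑ v ∈ (Finset.univ.erase v₁).erase v₂, φ v (z₀ v) := by
    apply Finset.sum_congr rfl
    intro v hv
    rw [Pi.zero_apply, add_zero, hzv v]
    exact Finset.ne_of_mem_erase (Finset.mem_of_mem_erase hv)
  have h3 : Λ = φ v₁ (z₀ v₁ + H • u₁) + (φ v₂ (z₀ v₂)
      + ∑ v ∈ (Finset.univ.erase v₁).erase v₂, φ v (z₀ v)) := by
    rw [hΛdef, Finset.add_sum_erase _ (fun v => φ v (z₀ v))
      (Finset.mem_erase.2 ⟨hne.symm, Finset.mem_univ _⟩)]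
  have h4 : z v₁ + w₁ = z₀ v₁ + (H - τ / 2) • u₁ := by
    rw [hz₁, hw₁, add_assoc, ← add_smul]
    congr 2
    ring
  have h5 : φ v₁ (z v₁ + w₁) ≤ φ v₁ (z₀ v₁ + H • u₁) - c * H * τ / 2 := by
    rw [h4]
    have h6 := hlow (z₀ v₁ + (H - τ / 2) • u₁) (z₀ v₁ + H • u₁)
      (by linarith [hbd (H - τ / 2) (by linarith) (by linarith)])
      (by linarith [hbd H hH.le (by linarith)])
      (by rw [hnorm _ hH.le, hnorm _ (by linarith)]; linarith)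
    rw [hnorm _ hH.le, hnorm _ (by linarith)] at h6
    have h7 : c * H * τ / 2 ≤ c * (H ^ 2 - (H - τ / 2) ^ 2) := by
      have h10 : H * τ / 2 ≤ H ^ 2 - (H - τ / 2) ^ 2 := q2 hτ0 hτH
      calc c * H * τ / 2 = c * (H * τ / 2) := by ring
        _ ≤ _ := mul_le_mul_of_nonneg_left h10 hc.le
    linarith
  have h6 : φ v₂ (z v₂ + w₂) ≤ φ v₂ (z₀ v₂) + K * δ ^ (5 / 4 : ℝ) := by
    rw [hzv v₂ hne.symm]
    have := hK w₂ (by rw [hw₂n]; exact hδ2)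
    rw [hw₂n] at this
    linarith
  have h7 : ε ≤ c * H * τ / 4 := min_le_left _ _
  have h8 : c * H / 2 * (τ / 2) = c * H * τ / 4 := by ring
  have h9 : c * H * τ / 2 = c * H * τ / 4 + c * H * τ / 4 := by ring
  simp only [h2] at hfin
  linarith

end Pool.NS
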