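import Pool.Agent.Work.MP_b29d7f_ns.Interface2

/-! Common lemmas for the blocks FIN1 and FIN2. -/

set_option autoImplicit false

open Finset Filter Topology MeasureTheory

namespace Pool.NS

namespace FINC_

open Data

variable {R : Type} [CommRing R] {P : Data R}

lemma sum_update (φ : (v : P.Ω) → E (P.e v) → ℝ) (z : (v : P.Ω) → E (P.e v)) (v₁ : P.Ω)
    (ξ : E (P.e v₁)) :
    ∑ v, φ v (Function.update z v₁ ξ v) = φ v₁ ξ + ∑ v ∈ Finset.univ.erase v₁, φ v (z v) := by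
  rw [← Finset.add_sum_erase _ _ (Finset.mem_univ v₁), Function.update_self]
  congr 1
  apply Finset.sum_congr rfl
  intro v hv
  rw [Function.update_of_ne (Finset.ne_of_mem_erase hv)]

/-- small radii on which finitely many continuous functions vary little -/
lemma exists_radius (φ : (v : P.Ω) → E (P.e v) → ℝ) (hφ : ∀ v, Continuous (φ v))
    (z : (v : P.Ω) → E (P.e v)) {δ : ℝ} (hδ : 0 < δ) :
    ∃ κ : ℝ, 0 < κ ∧ κ ≤ 1 ∧ ∀ v, ∀ ξ, ‖ξ - z v‖ ≤ κ → |φ v ξ - φ v (z v)| ≤ δ := by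
  have h1 : ∀ v, ∀ᶠ κ in 𝓝[>] (0 : ℝ), ∀ ξ, ‖ξ - z v‖ ≤ κ → |φ v ξ - φ v (z v)| ≤ δ := by
    intro v
    obtain ⟨κ₀, hκ₀, h⟩ := Metric.continuousAt_iff.1 ((hφ v).continuousAt (x := z v)) δ hδ
    filter_upwards [Ioo_mem_nhdsGT hκ₀] with κ hκ ξ hξ
    have h2 : dist ξ (z v) < κ₀ := by
      rw [dist_eq_norm]; exact lt_of_le_of_lt hξ hκ.2
    have h3 := h h2
    rw [Real.dist_eq] at h3
    exact h3.le
  have h2 : ∀ᶠ κ in 𝓝[>] (0 : ℝ), κ ∈ Set.Ioo (0 : ℝ) 1 := Ioo_mem_nhdsGT one_pos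
  obtain ⟨κ, hκ1, hκ2⟩ := ((eventually_all.2 h1).and h2).exists
  exact ⟨κ, hκ2.1, hκ2.2.le, hκ1⟩

lemma near_of_ex (S : Sq P) {l : ℕ} {x : R} {W : ℝ} (hx : S.ex l x ≤ W) (t : P.T) {N : ℤ}
    (_hN0 : 0 ≤ N) (hN : W ≤ P.lq t * N) : P.NearT t (S.j l t + N) x 0 := by
  by_cases h0 : x = 0
  · exact Or.inl h0
  right
  rw [sub_zero]
  have h1 := S.lev_le_ex l h0 t
  have h2 := S.good.lq_pos t
  have h3 : P.lq t * ((max (P.lev t x - S.j l t) 0 : ℤ) : ℝ) ≤ P.lq t * N := by linarith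
  have h4 : ((max (P.lev t x - S.j l t) 0 : ℤ) : ℝ) ≤ N := le_of_mul_le_mul_left h3 h2
  have h5 : max (P.lev t x - S.j l t) 0 ≤ N := by exact_mod_cast h4
  have h6 := le_trans (le_max_left _ _) h5
  linarith

lemma ex_le_of (S : Sq P) {l : ℕ} {x : R} {B : ℝ} {N : P.T → ℤ} (hX : ∀ v, ‖S.X l x v‖ ≤ B)
    (hN0 : ∀ t, 0 ≤ N t) (hT : ∀ t, P.NearT t (S.j l t + N t) x 0) :
    S.ex l x ≤ ∑ v, (P.e v : ℝ) * Real.posLog B + ∑ t, P.lq t * (N t : ℝ) := by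
  unfold Sq.ex exc
  apply add_le_add
  · apply Finset.sum_le_sum
    intro v _
    apply mul_le_mul_of_nonneg_left _ (Nat.cast_nonneg _)
    rw [← S.norm_X]
    exact Real.posLog_le_posLog (norm_nonneg _) (hX v)
  · apply Finset.sum_le_sum
    intro t _
    apply mul_le_mul_of_nonneg_left _ (S.good.lq_pos t).le
    split_ifs with h0
    · exact_mod_cast hN0 t
    · have h1 := (hT t).resolve_left h0
      rw [sub_zero] at h1
      have h2 : max (P.lev t x - S.j l t) 0 ≤ N t := max_le (by linarith) (hN0 t)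
      exact_mod_cast h2


/-- points with large limit potential are outside -/
lemma up (hX : Stmt_XC) (hG : Stmt_GRO) (S : Sq P) (lam : ℕ → ℝ)
    (f φ : (v : P.Ω) → E (P.e v) → ℝ) (hL : ∀ v, LimV S v (f v) (φ v)) (Λ : ℝ)
    (hΛ : Tendsto (fun l => lam l - ⨅ x, S.pT l x) 𝒰 (𝓝 Λ)) (z : (v : P.Ω) → E (P.e v))
    (hz : Λ < ∑ v, φ v (z v)) :
    ∃ κ : ℝ, 0 < κ ∧ κ ≤ 1 ∧ ∀ᶠ l in 𝒰, ∀ x : R, (∀ v, ‖S.X l x v - z v‖ ≤ κ) →
      lam l < S.Ph l x := by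
  obtain ⟨W, hW⟩ := hX R P S
  set ε : ℝ := ∑ v, φ v (z v) - Λ with hε
  have hε0 : 0 < ε := by rw [hε]; linarith
  set N : ℝ := (Fintype.card P.Ω : ℝ) + 1 with hN
  have hNpos : 0 < N := by positivity
  set δ : ℝ := ε / (6 * N) with hδ
  have hδ0 : 0 < δ := by positivity
  have hφc : ∀ v, Continuous (φ v) := fun v =>
    (hG (P.e v) (f v) (φ v) (S.geo.e_eq v) (hL v).dens).1
  obtain ⟨κ, hκ0, hκ1, hκ⟩ := exists_radius φ hφc z hδ0
  refine ⟨κ, hκ0, hκ1, ?_⟩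
  have h1 : ∀ᶠ l in 𝒰, ∀ v, ∀ ξ : E (P.e v), ‖ξ‖ ≤ ‖z v‖ + 1 → |S.pV l v ξ - φ v ξ| ≤ δ :=
    eventually_all.2 fun v => (hL v).unif (‖z v‖ + 1) δ hδ0
  have h2 : ∀ᶠ l in 𝒰, |lam l - (⨅ x, S.pT l x) - Λ| < ε / 6 := by
    have := (Metric.tendsto_nhds.1 hΛ) (ε / 6) (by positivity)
    simpa only [Real.dist_eq] using this
  have h3 : ∀ᶠ l in 𝒰, BddBelow (Set.range (S.pT l)) :=
    ((hW 1 one_pos).filter_mono Nat.hyperfilter_le_atTop).mono fun l hl => hl.1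
  filter_upwards [h1, h2, h3] with l h1 h2 h3 x hx
  have h4 : ⨅ x, S.pT l x ≤ S.pT l x := ciInf_le h3 x
  have h5 : ∑ v, (φ v (z v) - 2 * δ) ≤ ∑ v, S.pV l v (S.X l x v) := by
    apply Finset.sum_le_sum
    intro v _
    have h6 := hκ v _ (hx v)
    have h7 : ‖S.X l x v‖ ≤ ‖z v‖ + 1 := by
      calc ‖S.X l x v‖ = ‖z v + (S.X l x v - z v)‖ := by congr 1; abel
        _ ≤ ‖z v‖ + ‖S.X l x v - z v‖ := norm_add_le _ _
        _ ≤ ‖z v‖ + 1 := by linarith [hx v]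
    have h8 := h1 v _ h7
    rw [abs_le] at h6 h8
    linarith [h6.1, h8.1]
  rw [Finset.sum_sub_distrib, Finset.sum_const, nsmul_eq_mul, Finset.card_univ] at h5
  have h9 : (Fintype.card P.Ω : ℝ) * (2 * δ) ≤ ε / 3 := by
    have h10 : N * δ = ε / 6 := by
      rw [hδ]; field_simp
    have h11 : (Fintype.card P.Ω : ℝ) * δ ≤ N * δ :=
      mul_le_mul_of_nonneg_right (by rw [hN]; linarith) hδ0.le
    linarith
  rw [abs_lt] at h2
  unfold Sq.Ph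
  linarith [h2.2]

/-- points with small limit potential are inside -/
lemma down (hM : Stmt_MOVE) (S : Sq P) (lam : ℕ → ℝ) (hlam : IsSub S lam)
    (f φ : (v : P.Ω) → E (P.e v) → ℝ) (hL : ∀ v, LimV S v (f v) (φ v)) (Λ : ℝ)
    (hΛ : Tendsto (fun l => lam l - ⨅ x, S.pT l x) 𝒰 (𝓝 Λ)) (W ε : ℝ) (hε : 0 < ε) :
    ∃ (κ : ℝ) (r : ℕ), 0 < κ ∧ ∀ᶠ l in 𝒰, ∀ b : R, S.ex l b ≤ W →
      S.pT l b ≤ (⨅ x, S.pT l x) + κ → ∀ (ζ : (v : P.Ω) → E (P.e v)) (x : R),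
      (∀ v, ‖ζ v‖ ≤ W) → ∑ v, φ v (ζ v) ≤ Λ - ε → (∀ v, ‖S.X l x v - ζ v‖ ≤ κ) →
      (∀ t, P.NearT t (S.j l t - r) x b) → x ∈ S.A l := by
  set N : ℝ := (Fintype.card P.Ω : ℝ) + 1 with hN
  have hNpos : 0 < N := by positivity
  set δ : ℝ := ε / (6 * N) with hδ
  have hδ0 : 0 < δ := by positivity
  obtain ⟨κ, r, hκ0, h0⟩ := hM R P S f φ hL (W + Real.exp W) (ε / 6) (by positivity)
  refine ⟨min κ (ε / 6), r, by positivity, ?_⟩
  have h1 : ∀ᶠ l in 𝒰, ∀ v, ∀ ξ : E (P.e v), ‖ξ‖ ≤ Real.exp W → |S.pV l v ξ - φ v ξ| ≤ δ :=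
    eventually_all.2 fun v => (hL v).unif (Real.exp W) δ hδ0
  have h2 : ∀ᶠ l in 𝒰, |lam l - (⨅ x, S.pT l x) - Λ| < ε / 6 := by
    have := (Metric.tendsto_nhds.1 hΛ) (ε / 6) (by positivity)
    simpa only [Real.dist_eq] using this
  have h3 : ∀ᶠ l in 𝒰, ∀ y : R, S.Ph l y < lam l - ε / 6 → y ∈ S.A l :=
    (hlam.mem (ε / 6) (by positivity)).filter_mono Nat.hyperfilter_le_atTop
  filter_upwards [h0, h1, h2, h3] with l h0 h1 h2 h3 b hb hbT ζ x hζ hΦ hx hxT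
  apply h3
  have hXb : ∀ v, ‖S.X l b v‖ ≤ Real.exp W := fun v =>
    (S.norm_X_le l b v).trans (Real.exp_le_exp.2 hb)
  have h4 := h0 b (x - b) (fun v => ζ v - S.X l b v)
    (hb.trans (by linarith [Real.exp_pos W]))
    (fun v => (norm_sub_le _ _).trans (add_le_add (hζ v) (hXb v)))
    (fun v => by
      have : S.X l (x - b) v - (ζ v - S.X l b v) = S.X l x v - ζ v := by
        rw [S.X_sub]; abel
      rw [this]
      exact (hx v).trans (min_le_left _ _))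
    (fun t => by
      rcases hxT t with h | h
      · left; rw [h, sub_self]
      · right; rw [sub_zero]; exact h)
  rw [add_sub_cancel] at h4
  have h5 : ∑ v, (φ v (S.X l b v + (ζ v - S.X l b v)) - φ v (S.X l b v))
      = ∑ v, φ v (ζ v) - ∑ v, φ v (S.X l b v) := by
    rw [← Finset.sum_sub_distrib]
    apply Finset.sum_congr rfl
    intro v _
    rw [add_sub_cancel]
  rw [h5] at h4
  have h6 : ∑ v, S.pV l v (S.X l b v) ≤ ∑ v, (φ v (S.X l b v) + δ) := by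
    apply Finset.sum_le_sum
    intro v _
    have h8 := h1 v _ (hXb v)
    rw [abs_le] at h8
    linarith [h8.2]
  rw [Finset.sum_add_distrib, Finset.sum_const, nsmul_eq_mul, Finset.card_univ] at h6
  have h9 : (Fintype.card P.Ω : ℝ) * δ ≤ ε / 6 := by
    have h10 : N * δ = ε / 6 := by
      rw [hδ]; field_simp
    have h11 : (Fintype.card P.Ω : ℝ) * δ ≤ N * δ :=
      mul_le_mul_of_nonneg_right (by rw [hN]; linarith) hδ0.le
    linarith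
  have h10 : S.Ph l b = ∑ v, S.pV l v (S.X l b v) + S.pT l b := rfl
  have h11 : S.pT l b ≤ (⨅ x, S.pT l x) + ε / 6 := hbT.trans (by
    linarith [min_le_right κ (ε / 6)])
  rw [abs_lt] at h2
  rw [abs_le] at h4
  linarith [h4.2, h2.1]

/-- moving an inner point -/
lemma moveIn (hM : Stmt_MOVE) (S : Sq P) (lam : ℕ → ℝ) (hlam : IsSub S lam)
    (f φ : (v : P.Ω) → E (P.e v) → ℝ) (hL : ∀ v, LimV S v (f v) (φ v))
    (W ε : ℝ) (hε : 0 < ε) :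
    ∃ (κ : ℝ) (r : ℕ), 0 < κ ∧ ∀ᶠ l in 𝒰, ∀ (a ω : R) (w : (v : P.Ω) → E (P.e v)),
      S.ex l a ≤ W → S.Ph l a ≤ lam l → (∀ v, ‖w v‖ ≤ W) →
      ∑ v, (φ v (S.X l a v + w v) - φ v (S.X l a v)) ≤ -ε → (∀ v, ‖S.X l ω v - w v‖ ≤ κ) →
      (∀ t, P.NearT t (S.j l t - r) ω 0) → a + ω ∈ S.A l := by
  obtain ⟨κ, r, hκ0, h0⟩ := hM R P S f φ hL W (ε / 4) (by positivity)
  refine ⟨κ, r, hκ0, ?_⟩
  have h3 : ∀ᶠ l in 𝒰, ∀ y : R, S.Ph l y < lam l - ε / 4 → y ∈ S.A l :=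
    (hlam.mem (ε / 4) (by positivity)).filter_mono Nat.hyperfilter_le_atTop
  filter_upwards [h0, h3] with l h0 h3 a ω w ha hPa hw hΦ hω hωT
  apply h3
  have h4 := h0 a ω w ha hw hω hωT
  rw [abs_le] at h4
  linarith [h4.2]

/-- the core of the argument -/
lemma core (hX : Stmt_XC) (hG : Stmt_GRO) (hM : Stmt_MOVE) (hP : Stmt_PLC) (hRp : Stmt_REP)
    (S : Sq P) (lam : ℕ → ℝ) (hlam : IsSub S lam)
    (f φ : (v : P.Ω) → E (P.e v) → ℝ) (hL : ∀ v, LimV S v (f v) (φ v)) (Λ : ℝ)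
    (hΛ : Tendsto (fun l => lam l - ⨅ x, S.pT l x) 𝒰 (𝓝 Λ)) (W₀ : ℝ) :
    ∃ c₁ C₂ D : ℝ, 0 < c₁ ∧ ∀ (z : (v : P.Ω) → E (P.e v)) (κ ε W : ℝ), (∀ v, ‖z v‖ ≤ W₀) →
      Λ < ∑ v, φ v (z v) → 0 < κ → 0 < ε → ∀ᶠ l in 𝒰, ∃ y a : R,
        (∀ v, ‖S.X l y v - z v‖ ≤ κ) ∧ y ≠ a ∧ y - a ∈ S.L l ∧ S.ex l a ≤ C₂ ∧
        S.ex l (y - a) ≤ D ∧ (∀ v, c₁ ≤ ‖S.X l (y - a) v‖) ∧
        ∀ w : (v : P.Ω) → E (P.e v), (∀ v, ‖w v‖ ≤ W) →
          ∑ v, (φ v (S.X l a v + w v) - φ v (S.X l a v)) ≤ -ε →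
          Λ - ε < ∑ v, φ v (z v + w v) := by
  obtain ⟨W₁, hW₁⟩ := hX R P S
  obtain ⟨c₁, C₂, hc₁, hrep⟩ := hRp R P S lam hlam (max W₀ W₁)
  -- levels
  set N : P.T → ℤ := fun t => ⌈max 0 (max W₁ C₂) / P.lq t⌉ with hN
  have hN0 : ∀ t, 0 ≤ N t := fun t =>
    Int.ceil_nonneg (div_nonneg (le_max_left _ _) (S.good.lq_pos t).le)
  have hN1 : ∀ t, max 0 (max W₁ C₂) ≤ P.lq t * (N t : ℝ) := by
    intro t
    have h1 : max 0 (max W₁ C₂) / P.lq t ≤ (N t : ℝ) := Int.le_ceil _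
    rw [div_le_iff₀ (S.good.lq_pos t)] at h1
    linarith
  refine ⟨c₁, C₂, ∑ v, (P.e v : ℝ) * Real.posLog (W₀ + 1 + Real.exp C₂)
    + ∑ t, P.lq t * (N t : ℝ), hc₁, ?_⟩
  intro z κ ε W hz hΦ hκ hε
  set W₂ : ℝ := max (max W₀ W₁) (max C₂ W) + max W 0 with hW₂
  have hW₂0 : max (max W₀ W₁) (max C₂ W) ≤ W₂ := by
    rw [hW₂]; linarith [le_max_right W 0]
  obtain ⟨κ₀, hκ₀, hκ₀1, hup⟩ := up hX hG S lam f φ hL Λ hΛ z hΦ
  obtain ⟨κ₁, r₁, hκ₁, hdown⟩ := down hM S lam hlam f φ hL Λ hΛ W₂ ε hε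
  obtain ⟨κ₂, r₂, hκ₂, hmove⟩ := moveIn hM S lam hlam f φ hL W₂ ε hε
  set κ' : ℝ := min (min κ κ₀) (min (κ₁ / 2) κ₂) with hκ'
  have hκ'0 : 0 < κ' := by
    rw [hκ']; positivity
  have hκ'κ : κ' ≤ κ := (min_le_left _ _).trans (min_le_left _ _)
  have hκ'κ₀ : κ' ≤ κ₀ := (min_le_left _ _).trans (min_le_right _ _)
  have hκ'κ₁ : κ' ≤ κ₁ / 2 := (min_le_right _ _).trans (min_le_left _ _)
  have hκ'κ₂ : κ' ≤ κ₂ := (min_le_right _ _).trans (min_le_right _ _)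
  set r : ℕ := max r₁ r₂ with hr
  have hr₁ : (r₁ : ℤ) ≤ r := by exact_mod_cast le_max_left _ _
  have hr₂ : (r₂ : ℤ) ≤ r := by exact_mod_cast le_max_right _ _
  obtain ⟨c, hc, hplc⟩ := hP R P S κ' r hκ'0
  have e1 := (hrep κ' r hκ'0 (hκ'κ₀.trans hκ₀1)).filter_mono Nat.hyperfilter_le_atTop
  have e2 := hplc.filter_mono Nat.hyperfilter_le_atTop
  have e3 := (hW₁ κ₁ hκ₁).filter_mono Nat.hyperfilter_le_atTop
  filter_upwards [hup, hdown, hmove, e1, e2, e3] with l hup hdown hmove e1 e2 e3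
  obtain ⟨-, b, hb1, hb2⟩ := e3
  obtain ⟨y, a, hy1, hy2, ha1, hya, hyL, ha2, ha3, hcl⟩ := e1 z b
    (fun v => (hz v).trans (le_max_left _ _)) (hb1.trans (le_max_right _ _))
    (fun x hx _ => hup x fun v => (hx v).trans hκ'κ₀)
  refine ⟨y, a, fun v => (hy1 v).trans hκ'κ, hya, hyL, ha2, ?_, hcl, ?_⟩
  · apply ex_le_of S _ hN0
    · intro t
      have n1 : P.NearT t (S.j l t + N t) b 0 :=
        near_of_ex S hb1 t (hN0 t) (((le_max_left _ _).trans (le_max_right _ _)).trans (hN1 t))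
      have n2 : P.NearT t (S.j l t + N t) a 0 :=
        near_of_ex S ha2 t (hN0 t) (((le_max_right _ _).trans (le_max_right _ _)).trans (hN1 t))
      have n3 : P.NearT t (S.j l t + N t) y b := NearT.mono (by
        have := hN0 t
        have h0 : (0 : ℤ) ≤ r := Int.natCast_nonneg r
        linarith) (hy2 t)
      exact S.geo.nearT_sub (S.geo.nearT_trans n3 n1) n2
    · intro v
      rw [S.X_sub]
      refine (norm_sub_le _ _).trans (add_le_add ?_ ?_)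
      · calc ‖S.X l y v‖ = ‖z v + (S.X l y v - z v)‖ := by congr 1; abel
          _ ≤ ‖z v‖ + ‖S.X l y v - z v‖ := norm_add_le _ _
          _ ≤ W₀ + 1 := add_le_add (hz v) ((hy1 v).trans (hκ'κ₀.trans hκ₀1))
      · exact (S.norm_X_le l a v).trans (Real.exp_le_exp.2 ha2)
  · intro w hw hsum
    by_contra hcon
    rw [not_lt] at hcon
    obtain ⟨B, ⟨ω, hωB⟩, -, hB⟩ := e2 w 0
    obtain ⟨hω1, hω2⟩ := hB ω hωB
    have m1 : a + ω ∈ S.A l := hmove a ω w (ha2.trans (le_trans ((le_max_left _ _).trans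
      (le_max_right _ _)) hW₂0)) ha3 (fun v => (hw v).trans (le_trans ((le_max_right _ _).trans
      (le_max_right _ _)) hW₂0)) hsum (fun v => (hω1 v).trans hκ'κ₂)
      (fun t => NearT.mono (by linarith) (hω2 t))
    have m2 : y + ω ∈ S.A l := by
      apply hdown b (hb1.trans (le_trans ((le_max_right _ _).trans (le_max_left _ _)) hW₂0)) hb2
        (fun v => z v + w v) (y + ω)
      · intro v
        refine (norm_add_le _ _).trans ?_
        rw [hW₂]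
        exact add_le_add ((hz v).trans ((le_max_left _ _).trans (le_max_left _ _)))
          ((hw v).trans (le_max_left _ _))
      · exact hcon
      · intro v
        have : S.X l (y + ω) v - (z v + w v) = (S.X l y v - z v) + (S.X l ω v - w v) := by
          rw [S.X_add]; abel
        rw [this]
        refine (norm_add_le _ _).trans ?_
        linarith [hy1 v, hω1 v]
      · intro t
        have n1 : P.NearT t (S.j l t - r₁) (y + ω) y := by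
          rcases NearT.mono (by linarith : S.j l t - (r : ℤ) ≤ S.j l t - r₁) (hω2 t) with h | h
          · left; rw [h, add_zero]
          · right; rw [sub_zero] at h; rw [add_sub_cancel_left]; exact h
        exact S.geo.nearT_trans n1 (NearT.mono (by linarith) (hy2 t))
    have := (S.opt l).inj _ m2 _ m1 (by rw [add_sub_add_right_eq_sub]; exact hyL)
    exact hya (add_right_cancel this)

end FINC_

end Pool.NS
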